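import Pool.Agent.Y336.RW.Stm

/-! Job RW-PRI: existence of primes (pure arithmetic). -/

set_option autoImplicit false

namespace Pool.Agent.Y195.RW

/-- a rational number whose square is an integer is an integer -/
lemma int_of_sq (q : ℚ) (n : ℤ) (h : q ^ 2 = n) : ∃ m : ℤ, q = m := by
  have h1 : (q ^ 2).den = 1 := by rw [h]; exact Rat.den_intCast n
  rw [Rat.den_pow] at h1
  have h2 : q.den = 1 := by
    have := Nat.pow_eq_one.1 h1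
    rcases this with h | h
    · exact h
    · norm_num at h
  exact ⟨q.num, ((Rat.den_eq_one_iff q).1 h2).symm⟩

/-- a large natural number without small factors has a large prime factor -/
lemma exists_prime7 (n : ℕ) (hn : 3 < n) (h2 : ¬ 2 ∣ n) (h5 : ¬ 5 ∣ n) (h9 : ¬ 9 ∣ n) :
    ∃ p : ℕ, p.Prime ∧ 7 ≤ p ∧ p ∣ n := by
  obtain ⟨m, hm1, hmn, hm3⟩ : ∃ m : ℕ, m ≠ 1 ∧ m ∣ n ∧ ¬ 3 ∣ m := by
    by_cases h3 : 3 ∣ n
    · obtain ⟨m, rfl⟩ := h3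
      refine ⟨m, by omega, Dvd.intro_left 3 rfl, ?_⟩
      rintro ⟨k, rfl⟩
      exact h9 ⟨k, by ring⟩
    · exact ⟨n, by omega, dvd_rfl, h3⟩
  obtain ⟨p, hp, hpm⟩ := Nat.exists_prime_and_dvd hm1
  refine ⟨p, hp, ?_, hpm.trans hmn⟩
  by_contra hlt
  push Not at hlt
  have h0 := hp.two_le
  interval_cases p
  · exact h2 (hpm.trans hmn)
  · exact hm3 hpm
  · exact absurd hp (by norm_num)
  · exact h5 (hpm.trans hmn)
  · exact absurd hp (by norm_num)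

lemma f9 : ∀ U T : ZMod 9, 3 * U ^ 8 - 150 * U ^ 4 * T ^ 4 - 625 * T ^ 8 = 0 →
    3 * U = 0 ∧ 3 * T = 0 := by decide

lemma h9 : ∀ U T : ZMod 9, U ^ 8 + 20 * U ^ 6 * T ^ 2 - 150 * U ^ 4 * T ^ 4
    + 500 * U ^ 2 * T ^ 6 + 625 * T ^ 8 = 0 → ∀ V : ZMod 9, V ^ 2 = U ^ 2 + 5 * T ^ 2 →
    3 * U = 0 ∧ 3 * T = 0 := by decide

lemma three_dvd (U : ℤ) (h : (3 : ZMod 9) * (U : ZMod 9) = 0) : (3 : ℤ) ∣ U := by
  have h1 : ((3 * U : ℤ) : ZMod 9) = 0 := by push_cast; exact h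
  have h2 : ((9 : ℕ) : ℤ) ∣ 3 * U := (ZMod.intCast_zmod_eq_zero_iff_dvd (3 * U) 9).1 h1
  obtain ⟨k, hk⟩ := h2
  exact ⟨k, by push_cast at hk; linarith⟩

/-- arithmetic of the conic pair -/
lemma arith (U T V W : ℤ) (hT : 0 < T) (hc : IsCoprime U T) (hV : V ^ 2 = U ^ 2 + 5 * T ^ 2)
    (hW : W ^ 2 = 5 * T ^ 2 - U ^ 2) :
    (∃ p : ℕ, p.Prime ∧ 7 ≤ p ∧ (p : ℤ) ∣ 3 * U ^ 8 - 150 * U ^ 4 * T ^ 4 - 625 * T ^ 8) ∧
    (∃ q : ℕ, q.Prime ∧ 7 ≤ q ∧ (q : ℤ) ∣ U ^ 8 + 20 * U ^ 6 * T ^ 2 - 150 * U ^ 4 * T ^ 4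
      + 500 * U ^ 2 * T ^ 6 + 625 * T ^ 8) := by
  have nd : ∀ d : ℤ, 1 < d → d ∣ U → d ∣ T → False := by
    intro d hd h1 h2
    have := hc.isUnit_of_dvd' h1 h2
    rw [Int.isUnit_iff] at this
    omega
  have sq4 : ∀ z : ℤ, z ^ 2 % 4 = 0 ∨ z ^ 2 % 4 = 1 := by
    intro z
    rcases Int.even_or_odd z with h | h
    · left
      obtain ⟨k, rfl⟩ := h
      have : (k + k) ^ 2 = 4 * k ^ 2 := by ring
      omega
    · right
      exact Int.sq_mod_four_eq_one_of_odd h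
  have sqe : ∀ z : ℤ, Even z → z ^ 2 % 4 = 0 := by
    intro z h
    obtain ⟨k, rfl⟩ := h
    have : (k + k) ^ 2 = 4 * k ^ 2 := by ring
    omega
  have hTodd : Odd T := by
    rw [← Int.not_even_iff_odd]
    intro hTe
    have hUo : Odd U := by
      rw [← Int.not_even_iff_odd]
      intro hUe
      exact nd 2 (by norm_num) hUe.two_dvd hTe.two_dvd
    have h1 := sqe T hTe
    have h2 := Int.sq_mod_four_eq_one_of_odd hUo
    have h3 := sq4 W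
    rw [hW] at h3
    omega
  have hUe : Even U := by
    rw [← Int.not_odd_iff_even]
    intro hUo
    have h1 := Int.sq_mod_four_eq_one_of_odd hTodd
    have h2 := Int.sq_mod_four_eq_one_of_odd hUo
    have h3 := sq4 V
    rw [hV] at h3
    omega
  have h5p : Prime (5 : ℤ) := by norm_num
  have h5U : ¬ (5 : ℤ) ∣ U := by
    intro h
    have h1 : (5 : ℤ) ∣ V := by
      apply h5p.dvd_of_dvd_pow (n := 2)
      rw [hV]
      exact dvd_add (Dvd.dvd.pow h (by norm_num)) (Dvd.intro _ rfl)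
    have h2 : (5 : ℤ) ∣ T := by
      apply h5p.dvd_of_dvd_pow (n := 2)
      obtain ⟨a, rfl⟩ := h
      obtain ⟨b, rfl⟩ := h1
      refine ⟨b ^ 2 - a ^ 2, ?_⟩
      linarith [show (5 * b) ^ 2 = 25 * b ^ 2 by ring, show (5 * a) ^ 2 = 25 * a ^ 2 by ring]
    exact nd 5 (by norm_num) h h2
  set F : ℤ := 3 * U ^ 8 - 150 * U ^ 4 * T ^ 4 - 625 * T ^ 8 with hF
  set H : ℤ := U ^ 8 + 20 * U ^ 6 * T ^ 2 - 150 * U ^ 4 * T ^ 4
      + 500 * U ^ 2 * T ^ 6 + 625 * T ^ 8 with hH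
  -- parity
  have hT8 : Odd (T ^ 8) := hTodd.pow
  have hF2 : ¬ (2 : ℤ) ∣ F := by
    intro h
    obtain ⟨k, hk⟩ := hUe.two_dvd
    obtain ⟨m, hm⟩ := h
    obtain ⟨t, ht⟩ := hT8
    have : F = 2 * (3 * 128 * k ^ 8 - 75 * (2 * k) ^ 4 * T ^ 4) - 625 * T ^ 8 := by
      rw [hF, hk]; ring
    rw [ht] at this
    omega
  have hH2 : ¬ (2 : ℤ) ∣ H := by
    intro h
    obtain ⟨k, hk⟩ := hUe.two_dvd
    obtain ⟨m, hm⟩ := h
    obtain ⟨t, ht⟩ := hT8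
    have : H = 2 * (128 * k ^ 8 + 10 * (2 * k) ^ 6 * T ^ 2 - 75 * (2 * k) ^ 4 * T ^ 4
      + 250 * (2 * k) ^ 2 * T ^ 6) + 625 * T ^ 8 := by
      rw [hH, hk]; ring
    rw [ht] at this
    omega
  have hF5 : ¬ (5 : ℤ) ∣ F := by
    intro h
    have h1 : (5 : ℤ) ∣ 3 * U ^ 8 := by
      have : 3 * U ^ 8 = F + 5 * (30 * U ^ 4 * T ^ 4 + 125 * T ^ 8) := by rw [hF]; ring
      rw [this]
      exact dvd_add h (Dvd.intro _ rfl)
    rcases h5p.dvd_or_dvd h1 with h2 | h2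
    · norm_num at h2
    · exact h5U (h5p.dvd_of_dvd_pow h2)
  have hH5 : ¬ (5 : ℤ) ∣ H := by
    intro h
    have h1 : (5 : ℤ) ∣ U ^ 8 := by
      have : U ^ 8 = H + 5 * (-(4 * U ^ 6 * T ^ 2) + 30 * U ^ 4 * T ^ 4 - 100 * U ^ 2 * T ^ 6
        - 125 * T ^ 8) := by rw [hH]; ring
      rw [this]
      exact dvd_add h (Dvd.intro _ rfl)
    exact h5U (h5p.dvd_of_dvd_pow h1)
  have hF9 : ¬ (9 : ℤ) ∣ F := by
    intro h
    have h1 : ((F : ℤ) : ZMod 9) = 0 := (ZMod.intCast_zmod_eq_zero_iff_dvd F 9).2 (by exact_mod_cast h)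
    rw [hF] at h1
    push_cast at h1
    obtain ⟨h2, h3⟩ := f9 _ _ h1
    exact nd 3 (by norm_num) (three_dvd U h2) (three_dvd T h3)
  have hH9 : ¬ (9 : ℤ) ∣ H := by
    intro h
    have h1 : ((H : ℤ) : ZMod 9) = 0 := (ZMod.intCast_zmod_eq_zero_iff_dvd H 9).2 (by exact_mod_cast h)
    rw [hH] at h1
    push_cast at h1
    have h0 : ((V ^ 2 : ℤ) : ZMod 9) = ((U ^ 2 + 5 * T ^ 2 : ℤ) : ZMod 9) := by rw [hV]
    push_cast at h0
    obtain ⟨h2, h3⟩ := h9 _ _ h1 _ h0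
    exact nd 3 (by norm_num) (three_dvd U h2) (three_dvd T h3)
  -- size
  have hs : 0 ≤ U ^ 2 := sq_nonneg U
  have hst : U ^ 2 ≤ 5 * T ^ 2 := by nlinarith [sq_nonneg W]
  have ht1 : 1 ≤ T ^ 2 := by nlinarith
  have ht4 : 1 ≤ T ^ 8 := by
    have : T ^ 8 = (T ^ 2) ^ 4 := by ring
    rw [this]
    exact one_le_pow₀ ht1
  have hFs : F ≤ -625 := by
    have h1 : U ^ 4 ≤ 25 * T ^ 4 := by nlinarith
    have h2 : 0 ≤ U ^ 4 := by positivity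
    have h3 : F = 3 * U ^ 4 * (U ^ 4 - 25 * T ^ 4) - 75 * U ^ 4 * T ^ 4 - 625 * T ^ 8 := by
      rw [hF]; ring
    have h4 : 3 * U ^ 4 * (U ^ 4 - 25 * T ^ 4) ≤ 0 :=
      mul_nonpos_of_nonneg_of_nonpos (by positivity) (by linarith)
    have h5 : 0 ≤ 75 * U ^ 4 * T ^ 4 := by positivity
    linarith
  have hHs : 625 ≤ H := by
    have h3 : H = U ^ 8 + U ^ 2 * T ^ 2 * (20 * U ^ 4 - 150 * U ^ 2 * T ^ 2 + 500 * T ^ 4)
        + 625 * T ^ 8 := by rw [hH]; ring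
    have h4 : 0 ≤ 20 * U ^ 4 - 150 * U ^ 2 * T ^ 2 + 500 * T ^ 4 := by
      nlinarith [sq_nonneg (4 * U ^ 2 - 15 * T ^ 2), sq_nonneg (T ^ 2), sq_nonneg (U ^ 2)]
    have h5 : 0 ≤ U ^ 2 * T ^ 2 * (20 * U ^ 4 - 150 * U ^ 2 * T ^ 2 + 500 * T ^ 4) :=
      mul_nonneg (by positivity) h4
    have h6 : 0 ≤ U ^ 8 := by positivity
    linarith
  have conv : ∀ (G : ℤ) (d : ℕ), ¬ (d : ℤ) ∣ G → ¬ d ∣ G.natAbs := by
    intro G d h h'
    exact h (Int.natCast_dvd.2 h')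
  constructor
  · obtain ⟨p, hp, hp7, hpF⟩ := exists_prime7 F.natAbs (by omega) (conv F 2 hF2) (conv F 5 hF5)
      (conv F 9 hF9)
    exact ⟨p, hp, hp7, Int.natCast_dvd.2 hpF⟩
  · obtain ⟨p, hp, hp7, hpH⟩ := exists_prime7 H.natAbs (by omega) (conv H 2 hH2) (conv H 5 hH5)
      (conv H 9 hH9)
    exact ⟨p, hp, hp7, Int.natCast_dvd.2 hpH⟩

theorem pri : Pool.Agent.Y336.RW.Pri := by
  intro x u v w hx hv hw
  set U : ℤ := u.num with hU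
  set T : ℤ := (u.den : ℤ) with hT
  have hT0 : 0 < T := by rw [hT]; exact_mod_cast u.den_pos
  have hTq : (T : ℚ) ≠ 0 := by exact_mod_cast hT0.ne'
  have huT : u * T = U := by
    rw [hT, hU]
    exact_mod_cast Rat.mul_den_eq_num u
  have hc : IsCoprime U T := by
    rw [Int.isCoprime_iff_gcd_eq_one]
    have := u.reduced
    rw [hU, hT, Int.gcd, Int.natAbs_natCast]
    exact this
  have hv2 : v ^ 2 = 5 + u ^ 2 := by linarith
  have hw2 : w ^ 2 = 5 - u ^ 2 := by linarith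
  have hVq : (v * T) ^ 2 = ((U ^ 2 + 5 * T ^ 2 : ℤ) : ℚ) := by
    push_cast
    rw [← huT, mul_pow, hv2]; ring
  have hWq : (w * T) ^ 2 = ((5 * T ^ 2 - U ^ 2 : ℤ) : ℚ) := by
    push_cast
    rw [← huT, mul_pow, hw2]; ring
  obtain ⟨V, hV⟩ := int_of_sq _ _ hVq
  obtain ⟨W, hW⟩ := int_of_sq _ _ hWq
  rw [hV] at hVq
  rw [hW] at hWq
  have hVi : V ^ 2 = U ^ 2 + 5 * T ^ 2 := by exact_mod_cast hVq
  have hWi : W ^ 2 = 5 * T ^ 2 - U ^ 2 := by exact_mod_cast hWq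
  obtain ⟨⟨p, hp, hp7, hpF⟩, q, hq, hq7, hqH⟩ := arith U T V W hT0 hc hVi hWi
  have hxT : x * T ^ 2 = -(U : ℚ) ^ 2 := by
    rw [hx, ← huT]; ring
  -- the prime does not divide `T`
  have key : ∀ r : ℕ, r.Prime → ¬ (r : ℤ) ∣ T → padicNorm r x ≤ 1 ∧
      ∀ (f : ℚ) (G : ℤ), f * T ^ 8 = G → (r : ℤ) ∣ G → padicNorm r f < 1 := by
    intro r hr hrT
    have : Fact r.Prime := ⟨hr⟩
    have hT1 : padicNorm r (T : ℚ) = 1 := (padicNorm.int_eq_one_iff (p := r) T).2 hrT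
    refine ⟨?_, ?_⟩
    · have h1 : padicNorm r (x * T ^ 2) = padicNorm r x := by
        rw [padicNorm.mul, pow_two, padicNorm.mul, hT1, mul_one, mul_one]
      rw [← h1, hxT]
      have h2 : -(U : ℚ) ^ 2 = ((-U ^ 2 : ℤ) : ℚ) := by push_cast; ring
      rw [h2]
      exact padicNorm.of_int _
    · intro f G hfG hG
      have h1 : padicNorm r (f * T ^ 8) = padicNorm r f := by
        rw [padicNorm.mul]
        have : padicNorm r ((T : ℚ) ^ 8) = 1 := by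
          have h3 : ((T : ℚ) ^ 8) = ((T : ℚ) * T * (T * T)) * ((T : ℚ) * T * (T * T)) := by ring
          rw [h3]
          simp only [padicNorm.mul, hT1, mul_one]
        rw [this, mul_one]
      rw [← h1, hfG]
      exact (padicNorm.int_lt_one_iff (p := r) G).2 hG
  have nd : ∀ r : ℕ, r.Prime → (r : ℤ) ∣ U → (r : ℤ) ∣ T → False := by
    intro r hr h1 h2
    have := hc.isUnit_of_dvd' h1 h2
    exact (Nat.prime_iff_prime_int.1 hr).not_isUnit this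
  constructor
  · have hpi := Nat.prime_iff_prime_int.1 hp
    have hpT : ¬ (p : ℤ) ∣ T := by
      intro h
      have h1 : (p : ℤ) ∣ 3 * U ^ 8 := by
        have : 3 * U ^ 8 = (3 * U ^ 8 - 150 * U ^ 4 * T ^ 4 - 625 * T ^ 8)
          + T * (150 * U ^ 4 * T ^ 3 + 625 * T ^ 7) := by ring
        rw [this]
        exact dvd_add hpF (h.mul_right _)
      rcases hpi.dvd_or_dvd h1 with h2 | h2
      · have := Int.le_of_dvd (by norm_num) h2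
        omega
      · exact nd p hp (hpi.dvd_of_dvd_pow h2) h
    obtain ⟨k1, k2⟩ := key p hp hpT
    refine ⟨p, hp, hp7, k1, k2 _ _ ?_ hpF⟩
    have e2 : (x * (T : ℚ) ^ 2) ^ 2 = (U : ℚ) ^ 4 := by rw [hxT]; ring
    have e4 : (x * (T : ℚ) ^ 2) ^ 4 = (U : ℚ) ^ 8 := by rw [hxT]; ring
    push_cast
    linear_combination 3 * e4 - 150 * (T : ℚ) ^ 4 * e2
  · have hqi := Nat.prime_iff_prime_int.1 hq
    have hqT : ¬ (q : ℤ) ∣ T := by
      intro h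
      have h1 : (q : ℤ) ∣ U ^ 8 := by
        have : U ^ 8 = (U ^ 8 + 20 * U ^ 6 * T ^ 2 - 150 * U ^ 4 * T ^ 4
          + 500 * U ^ 2 * T ^ 6 + 625 * T ^ 8)
          + T * (-(20 * U ^ 6 * T) + 150 * U ^ 4 * T ^ 3 - 500 * U ^ 2 * T ^ 5 - 625 * T ^ 7) := by
          ring
        rw [this]
        exact dvd_add hqH (h.mul_right _)
      exact nd q hq (hqi.dvd_of_dvd_pow h1) h
    obtain ⟨k1, k2⟩ := key q hq hqT
    refine ⟨q, hq, hq7, k1, k2 _ _ ?_ hqH⟩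
    have e1 : (x * (T : ℚ) ^ 2) = -(U : ℚ) ^ 2 := hxT
    have e2 : (x * (T : ℚ) ^ 2) ^ 2 = (U : ℚ) ^ 4 := by rw [hxT]; ring
    have e3 : (x * (T : ℚ) ^ 2) ^ 3 = -(U : ℚ) ^ 6 := by rw [hxT]; ring
    have e4 : (x * (T : ℚ) ^ 2) ^ 4 = (U : ℚ) ^ 8 := by rw [hxT]; ring
    push_cast
    linear_combination e4 - 20 * (T : ℚ) ^ 2 * e3 - 150 * (T : ℚ) ^ 4 * e2
      - 500 * (T : ℚ) ^ 6 * e1

end Pool.Agent.Y195.RW
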